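import Mathlib
import Pool.Agent.R325.AvgDegreeEx

/-!
# MP_fa793f_nt: linear growth of the average degree of the irreducible factors of `R`-transforms

Definitions from the imported files, for `R = g / h`:
* `degR g h = max (deg g) (deg h)`;
* `hom k a u v = ∑_{i ≤ k} a_i u^i v^(k-i)`;
* `transform g h f = h^(deg f) f(g/h)` is the `R`-transform `f_R`, and `iterTransform g h f n`
  is `f_R^{(n)}`;
* `iterFn g h n` is the pair (numerator, denominator) of `R^{(n)}`;
* `numSol g h α n` is the number of distinct solutions of `R^{(n)}(x) = α`;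
* `infOrbit g h j` are homogeneous coordinates of `R^{(j)}(∞)`;
* `delta`, `numFactors`, `avg`: sum of the degrees, number, and average degree of the distinct
  monic irreducible factors.
-/

set_option autoImplicit false

namespace Pool.Agent.Results.MP_fa793f_nt.LinearAverage

open Polynomial Pool.Agent.R325.AvgDegree

/-- `u(n) ≥ c n` for some `c > 0` and all large `n`. -/
def LinearGrowth (u : ℕ → ℝ) : Prop :=
  ∃ c : ℝ, 0 < c ∧ ∀ᶠ n : ℕ in Filter.atTop, c * n ≤ u n

/-- `α` is `R`-critical, `R = g / h`: the number of distinct solutions in the algebraic closure of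
`R^{(n)}(x) = α` is bounded. -/
def IsCritical {F : Type} [Field F] (g h : F[X]) (α : AlgebraicClosure F) : Prop :=
  ∃ B : ℕ, ∀ n, numSol g h α n ≤ B

/-- Let `F` be a finite field, `R = g / h` (coprime) of degree at least one, `f` of positive degree.

(1) `A_{f,R}(n)` grows at least linearly if and only if `δ_{f,R}(n)` is unbounded.

(2) Let `α` be a root of `f` which is not `R`-critical. (2a) If `α` is not in `F`, or more generally
is not of the form `R^{(j)}(∞)`, then `A_{f,R}(n)` grows at least linearly. (2b) Without any further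
condition, the average degree of the irreducible factors of the transform of `f` by the iterate
`R^{(n)}` (numerator and denominator of `R^{(n)}` in the place of `g` and `h`) grows at least
linearly.

(3) Some condition is needed in (2a): for `q = 3`, `R = x / (x^2 + 1)` and `f = x`, the root `0` is
not `R`-critical, but `f_R^{(n)} = x` and `A_{f,R}(n) = 1` for all `n`. -/
theorem result :
    (∀ (F : Type) [Field F] [Fintype F] (g h f : F[X]), IsCoprime g h → 1 ≤ degR g h →
      1 ≤ f.natDegree →
      (LinearGrowth (fun n => avg (iterTransform g h f n)) ↔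
        ∀ B : ℕ, ∃ n, B ≤ delta (iterTransform g h f n)) ∧
      (∀ α : AlgebraicClosure F, aeval α f = 0 → ¬ IsCritical g h α →
        (((∀ a : F, algebraMap F (AlgebraicClosure F) a ≠ α) ∨
          (∀ j : ℕ, algebraMap F (AlgebraicClosure F) (infOrbit g h j).1 ≠
            α * algebraMap F (AlgebraicClosure F) (infOrbit g h j).2)) →
          LinearGrowth (fun n => avg (iterTransform g h f n))) ∧
        LinearGrowth (fun n => avg (transform (iterFn g h n).1 (iterFn g h n).2 f)))) ∧
    (IsCoprime (X : (ZMod 3)[X]) (X ^ 2 + 1) ∧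
      aeval (0 : AlgebraicClosure (ZMod 3)) (X : (ZMod 3)[X]) = 0 ∧
      ¬ IsCritical (X : (ZMod 3)[X]) (X ^ 2 + 1) 0 ∧
      ∀ n, iterTransform (X : (ZMod 3)[X]) (X ^ 2 + 1) X n = X ∧
        avg (iterTransform (X : (ZMod 3)[X]) (X ^ 2 + 1) X n) = 1) := by
  refine ⟨?_, coprime_ex, by simp, ?_, fun n => ⟨iterTransform_ex n, ?_⟩⟩
  · intro F _ _ g h f hc hd hf1
    have hf : f ≠ 0 := by rintro rfl; simp at hf1
    have hA := partA (AlgebraicClosure F) g h f hc hd hf
    refine ⟨hA, fun α hα hcrit => ?_⟩
    have hcrit' : ∀ B, ∃ n, B < numSol g h α n := by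
      intro B
      by_contra hcon
      push Not at hcon
      exact hcrit ⟨B, hcon⟩
    refine ⟨fun hor => hA.mpr ?_, partC g h f hc hd hf α hα hcrit'⟩
    rcases hor with h1 | h1
    · exact partB g h f hc hd hf α hα hcrit' (infOrbit_ne g h hc hd α h1)
    · exact partB g h f hc hd hf α hα hcrit' h1
  · rintro ⟨B, hB⟩
    obtain ⟨n, hn⟩ := not_critical_ex (K := AlgebraicClosure (ZMod 3)) B
    exact absurd (hB n) (not_le.mpr hn)
  · rw [iterTransform_ex, avg_X]

end Pool.Agent.Results.MP_fa793f_nt.LinearAverage
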